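import Pool.Agent.R712.PascComp

/-!
# MP_454c72_al, Q1

Two distinct Pascalian polynomials have no common complex root other than `-1`.
-/

set_option autoImplicit false

namespace Pool.Agent.Results.MP_454c72_al.NoCommonRoots

open Finset Polynomial

/-- `B(n,k) = C(n, ⌊(n-k)/2⌋)`. -/
def B (n k : ℕ) : ℕ := n.choose ((n - k) / 2)

/-- The `n`th Pascalian polynomial `P_n(z) = ∑_{k=0}^n B(n,k) z^{n-k}`. -/
noncomputable def pascalian (n : ℕ) : ℤ[X] :=
  ∑ k ∈ range (n + 1), C (B n k : ℤ) * X ^ (n - k)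

theorem aeval_pascalian (n : ℕ) (z : ℂ) : aeval z (pascalian n) = Pool.R712.Pasc.PE n z := by
  rw [pascalian, Pool.R712.Pasc.PE, ← Finset.sum_range_reflect]
  rw [map_sum]
  apply Finset.sum_congr rfl
  intro k hk
  rw [mem_range] at hk
  have h1 : n + 1 - 1 - k = n - k := by omega
  have h2 : n - (n - k) = k := by omega
  rw [h1, B, h2]
  simp

/-- For all `1 ≤ k ≤ n`, the only possible common complex root of `P_n` and `P_{n-k}` is `-1`. -/
theorem result (n k : ℕ) (hk : 1 ≤ k) (hkn : k ≤ n) (z : ℂ)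
    (h1 : aeval z (pascalian n) = 0) (h2 : aeval z (pascalian (n - k)) = 0) : z = -1 := by
  by_contra hz
  rw [aeval_pascalian] at h1 h2
  exact Pool.R712.Pasc.no_common (n - k) n (by omega) z hz h2 h1

end Pool.Agent.Results.MP_454c72_al.NoCommonRoots
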